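import Pool.Agent.H26.REM.Targets

/-!
# Row EMB of rcl_modules: the vectors of the weighted conjugates
-/

set_option autoImplicit false

namespace Pool.Agent.H51.REM

open Pool.Agent.H26.REM NumberField Height Finset Polynomial

/-- independence over the rational numbers is kept if one basis has an independent image -/
theorem emb_gen {V E ι : Type} [AddCommGroup V] [Module ℚ V] [NormedAddCommGroup E]
    [InnerProductSpace ℂ E] [Fintype ι] (j : V →+ E) (b : Module.Basis ι ℚ V)
    (hb : ∀ d : ι → ℂ, ∑ l, d l • j (b l) = 0 → ∀ l, d l = 0) : IsEm j := by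
  intro k z hz
  rw [Fintype.linearIndependent_iff]
  intro c hc i
  have hj : ∀ (q : ℚ) (x : V), j (q • x) = (q : ℂ) • j x := by
    intro q x
    have h1 := map_ratCast_smul j ℚ ℂ q x
    simpa using h1
  have hzi : ∀ i, j (z i) = ∑ l, ((b.repr (z i) l : ℚ) : ℂ) • j (b l) := by
    intro i
    conv_lhs => rw [← b.sum_repr (z i)]
    rw [map_sum]
    exact Finset.sum_congr rfl fun l _ => hj _ _
  have h1 : ∑ l, (∑ i, c i * ((b.repr (z i) l : ℚ) : ℂ)) • j (b l) = 0 := by
    rw [← hc]
    have h2 : ∀ i, c i • j (z i) = ∑ l, (c i * ((b.repr (z i) l : ℚ) : ℂ)) • j (b l) := by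
      intro i
      rw [hzi, Finset.smul_sum]
      exact Finset.sum_congr rfl fun l _ => by rw [smul_smul]
    rw [Finset.sum_congr rfl fun i _ => h2 i, Finset.sum_comm]
    exact Finset.sum_congr rfl fun l _ => by rw [Finset.sum_smul]
  have h3 := hb _ h1
  rw [← Module.forall_dual_apply_eq_zero_iff ℚ (c i)]
  intro φ
  have h4 : ∑ i, φ (c i) • z i = 0 := by
    apply b.repr.injective
    rw [map_zero]
    ext l
    rw [map_sum, Finsupp.finsetSum_apply, Finsupp.zero_apply]
    have h5 := congrArg φ (h3 l)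
    rw [map_zero, map_sum] at h5
    rw [← h5]
    refine Finset.sum_congr rfl fun i _ => ?_
    rw [map_smul, Finsupp.smul_apply, smul_eq_mul]
    have h6 : c i * ((b.repr (z i) l : ℚ) : ℂ) = (b.repr (z i) l) • c i := by
      rw [Rat.smul_def, mul_comm]
    rw [h6, map_smul, smul_eq_mul, mul_comm]
  exact Fintype.linearIndependent_iff.1 hz _ h4 i

theorem emb_conj (M : Type) [Field M] [NumberField M] :
    ∃ (ι : Type) (_ : Fintype ι) (b : Module.Basis ι ℚ M), ∀ d : ι → ℂ,
      (∀ s : M →+* ℂ, ∑ l, d l * s (b l) = 0) → ∀ l, d l = 0 := by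
  classical
  set b := Module.finBasis ℚ M with hb
  refine ⟨Fin (Module.finrank ℚ M), inferInstance, b, fun d hd => ?_⟩
  have hcard : Fintype.card (Fin (Module.finrank ℚ M)) = Fintype.card (M →ₐ[ℚ] ℂ) := by
    rw [AlgHom.card, Fintype.card_fin]
  set e := Fintype.equivOfCardEq hcard with he
  have h1 := Algebra.discr_eq_det_embeddingsMatrixReindex_pow_two ℚ ℂ (b : _ → M) e
  have h2 := Algebra.discr_not_zero_of_basis ℚ b
  have h3 : (Algebra.embeddingsMatrixReindex ℚ ℂ (b : _ → M) e).det ≠ 0 := by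
    intro h0
    rw [h0] at h1
    apply h2
    apply (algebraMap ℚ ℂ).injective
    rw [h1, map_zero]
    simp
  have h4 : Matrix.vecMul d (Algebra.embeddingsMatrixReindex ℚ ℂ (b : _ → M) e) = 0 := by
    funext j
    exact hd ((e j : M →ₐ[ℚ] ℂ) : M →+* ℂ)
  have h5 := Matrix.eq_zero_of_vecMul_eq_zero h3 h4
  intro l
  rw [h5]
  rfl

theorem pf_EMB : T_EMB := by
  intro M _ _ w w' hw hw'
  obtain ⟨ι, _, b, hb⟩ := emb_conj M
  refine ⟨emb_gen _ b fun d hd => hb d fun s => ?_,
    emb_gen _ (b.prod b) fun d hd => ?_⟩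
  · have h1 := congrArg (fun v : EuclideanSpace ℂ (M →+* ℂ) => v s) hd
    have h2 : (w s : ℂ) ≠ 0 := by exact_mod_cast (hw s).ne'
    refine mul_left_cancel₀ h2 ?_
    rw [mul_zero, Finset.mul_sum]
    simp only [WithLp.ofLp_sum, Finset.sum_apply, PiLp.smul_apply, smul_eq_mul,
      PiLp.zero_apply] at h1
    rw [← h1]
    refine Finset.sum_congr rfl fun l _ => ?_
    change (w s : ℂ) * (d l * s (b l)) = d l * ((w s : ℂ) * s (b l))
    ring
  · have h1 := fun x : (M →+* ℂ) ⊕ (M →+* ℂ) =>
      congrArg (fun v : EuclideanSpace ℂ ((M →+* ℂ) ⊕ (M →+* ℂ)) => v x) hd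
    simp only [Fintype.sum_sum_type, PiLp.add_apply, WithLp.ofLp_sum, Finset.sum_apply,
      PiLp.smul_apply, smul_eq_mul, PiLp.zero_apply] at h1
    have hl : ∀ l, d (Sum.inl l) = 0 := by
      refine hb (fun l => d (Sum.inl l)) fun s => ?_
      have h2 : (w s : ℂ) ≠ 0 := by exact_mod_cast (hw s).ne'
      refine mul_left_cancel₀ h2 ?_
      rw [mul_zero, Finset.mul_sum]
      have h3 := h1 (Sum.inl s)
      have h4 : ∑ l, d (Sum.inl l) * (vec2 M w w' ((b.prod b) (Sum.inl l))) (Sum.inl s) =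
          ∑ l, (w s : ℂ) * (d (Sum.inl l) * s (b l)) := by
        refine Finset.sum_congr rfl fun l _ => ?_
        change d (Sum.inl l) * ((w s : ℂ) * s ((b.prod b) (Sum.inl l)).1) = _
        rw [Module.Basis.prod_apply_inl_fst]
        ring
      have h5 : ∑ l, d (Sum.inr l) * (vec2 M w w' ((b.prod b) (Sum.inr l))) (Sum.inl s) = 0 := by
        refine Finset.sum_eq_zero fun l _ => ?_
        change d (Sum.inr l) * ((w s : ℂ) * s ((b.prod b) (Sum.inr l)).1) = _
        rw [Module.Basis.prod_apply_inr_fst, map_zero, mul_zero, mul_zero]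
      rw [h4, h5, add_zero] at h3
      exact h3
    have hr : ∀ l, d (Sum.inr l) = 0 := by
      refine hb (fun l => d (Sum.inr l)) fun s => ?_
      have h2 : (w' s : ℂ) ≠ 0 := by exact_mod_cast (hw' s).ne'
      refine mul_left_cancel₀ h2 ?_
      rw [mul_zero, Finset.mul_sum]
      have h3 := h1 (Sum.inr s)
      have h4 : ∑ l, d (Sum.inr l) * (vec2 M w w' ((b.prod b) (Sum.inr l))) (Sum.inr s) =
          ∑ l, (w' s : ℂ) * (d (Sum.inr l) * s (b l)) := by
        refine Finset.sum_congr rfl fun l _ => ?_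
        change d (Sum.inr l) * ((w' s : ℂ) * s ((b.prod b) (Sum.inr l)).2) = _
        rw [Module.Basis.prod_apply_inr_snd]
        ring
      have h5 : ∑ l, d (Sum.inl l) * (vec2 M w w' ((b.prod b) (Sum.inl l))) (Sum.inr s) = 0 := by
        refine Finset.sum_eq_zero fun l _ => ?_
        change d (Sum.inl l) * ((w' s : ℂ) * s ((b.prod b) (Sum.inl l)).2) = _
        rw [Module.Basis.prod_apply_inl_snd, map_zero, mul_zero, mul_zero]
      rw [h4, h5, zero_add] at h3
      exact h3
    rintro (l | l)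
    · exact hl l
    · exact hr l

end Pool.Agent.H51.REM
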