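import Pool.Agent.H26.REM.Targets2

/-!
# Row MPR of rcl_modules: the theorem for the levels prime to `p`
-/

set_option autoImplicit false

namespace Pool.Agent.H51.REM

open Pool.Agent.H26.REM NumberField Height Finset Polynomial

theorem pf_MPR (hMPB : T_MPB) (hHA : Pool.Agent.H24.RD.T_HA) (hHB : Pool.Agent.H24.RD.T_HB) :
    T_MPR := by
  intro Ω _ _ _ _ r a ha p hp hp3 hpa hlog
  obtain ⟨c, hc, hM⟩ := hMPB r a ha p hp hp3 hpa hlog
  refine ⟨c, hc, ?_⟩
  intro m N ζ θ hLev hpm β hβ γ k e hk hγ hβ0 hno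
  set F : IntermediateField ℚ Ω := IntermediateField.adjoin ℚ (insert ζ (Set.range θ)) with hF
  have hfin : Finite (insert ζ (Set.range θ) : Set Ω) := Set.Finite.insert _ (Set.finite_range θ)
  have hFD : FiniteDimensional ℚ F :=
    IntermediateField.finiteDimensional_adjoin fun x _ =>
      (Algebra.IsAlgebraic.isAlgebraic (R := ℚ) x).isIntegral
  have hNF : NumberField F := ⟨⟩
  have hζ : ζ ∈ F := IntermediateField.subset_adjoin ℚ _ (Set.mem_insert _ _)
  have hθ : ∀ i, θ i ∈ F := fun i =>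
    IntermediateField.subset_adjoin ℚ _ (Set.mem_insert_of_mem _ ⟨i, rfl⟩)
  have hinj : Function.Injective (algebraMap F Ω) := (algebraMap F Ω).injective
  set ζ' : F := ⟨ζ, hζ⟩ with hζ'
  set θ' : Fin r → F := fun i => ⟨θ i, hθ i⟩ with hθ'
  have hLev' : Lev a m N ζ' θ' := by
    refine ⟨hLev.nz, hLev.m0, hLev.N0, ?_, ?_, hLev.copm, hLev.cop, hLev.good⟩
    · refine IsPrimitiveRoot.of_map_of_injective (f := algebraMap F Ω) ?_ hinj
      exact hLev.prim
    · intro i
      apply hinj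
      rw [map_pow, map_ratCast]
      exact hLev.pow i
  have htop0 : ∀ A : Algebra ℚ F, @IntermediateField.adjoin ℚ _ F _ A
      (insert ζ' (Set.range θ')) = (⊤ : @IntermediateField ℚ F _ _ A) := by
    intro A
    obtain rfl : A = F.algebra' := Subsingleton.elim _ _
    apply IntermediateField.lift_injective F
    rw [IntermediateField.lift_adjoin, IntermediateField.lift_top]
    refine Eq.trans (congrArg (IntermediateField.adjoin ℚ) (?_ : _ = insert ζ (Set.range θ)))
      hF.symm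
    ext x
    constructor
    · rintro ⟨y, hy, rfl⟩
      rcases hy with rfl | ⟨i, rfl⟩
      · exact Set.mem_insert _ _
      · exact Set.mem_insert_of_mem _ ⟨i, rfl⟩
    · rintro (rfl | ⟨i, rfl⟩)
      · exact ⟨ζ', Set.mem_insert _ _, rfl⟩
      · exact ⟨θ' i, Set.mem_insert_of_mem _ ⟨i, rfl⟩, rfl⟩
  have htop : IntermediateField.adjoin ℚ (insert ζ' (Set.range θ')) = ⊤ := htop0 _
  set β' : F := ⟨β, hβ⟩ with hβ'
  have hβ'0 : β' ≠ 0 := fun h => hβ0 (congrArg (algebraMap F Ω) h)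
  have ha0 : ∀ i, ((a i : ℚ) : Ω) ≠ 0 := fun i => by
    exact_mod_cast (ha i).1
  have hkey := hM F m N ζ' θ' hLev' htop hpm β' k e hβ'0 hk (by
    rintro ⟨n, x, hn, hx⟩
    apply hno
    refine ⟨n * k, fun i => k * x i + n * e i, Nat.mul_pos hn hk, ?_⟩
    have h1 := congrArg (algebraMap F Ω) hx
    rw [map_pow, map_prod] at h1
    have h2 : β ^ n = ∏ i, ((a i : ℚ) : Ω) ^ x i := by
      refine Eq.trans h1 (Finset.prod_congr rfl fun i _ => ?_)
      rw [map_zpow₀, map_ratCast]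
    rw [mul_pow, pow_mul, h2, mul_comm n k, pow_mul γ, hγ, ← Finset.prod_pow, ← Finset.prod_pow,
      ← Finset.prod_mul_distrib]
    refine Finset.prod_congr rfl fun i _ => ?_
    rw [zpow_add₀ (ha0 i), ← zpow_natCast, ← zpow_natCast, ← zpow_mul, ← zpow_mul,
      mul_comm (x i), mul_comm (e i)])
  obtain ⟨-, -, -, hpow, -⟩ := hHB Ω
  have h3 : (β * γ) ^ k = algebraMap F Ω (β' ^ k * ∏ i, ((a i : ℚ) : F) ^ e i) := by
    have h31 : (∏ i, ((a i : ℚ) : Ω) ^ e i) = algebraMap F Ω (∏ i, ((a i : ℚ) : F) ^ e i) := by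
      rw [map_prod]
      refine Finset.prod_congr rfl fun i _ => ?_
      rw [map_zpow₀, map_ratCast]
    rw [mul_pow, hγ, map_mul, map_pow, h31]
    rfl
  have h4 := hHA F Ω (β' ^ k * ∏ i, ((a i : ℚ) : F) ^ e i)
  rw [← h3, hpow] at h4
  have hD : (0 : ℝ) < Module.finrank ℚ F := by exact_mod_cast Module.finrank_pos
  have hk' : (0 : ℝ) < k := by exact_mod_cast hk
  have h5 : c * k ≤ k * absLogHeight₁ (β * γ) := by
    rw [h4, le_div_iff₀ hD]
    calc c * k * Module.finrank ℚ F = c * (k * Module.finrank ℚ F) := by ring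
      _ ≤ _ := hkey
  have h6 : k * c ≤ k * absLogHeight₁ (β * γ) := by rw [mul_comm]; exact h5
  exact le_of_mul_le_mul_left h6 hk'

end Pool.Agent.H51.REM
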